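import Pool.Agent.H95.Newt.CLA

/-! # Project NEWTON: module CLB (cylinders with `f(φ) = t^d`, `d > N(u)`) -/

set_option autoImplicit false

namespace Pool.Newt

open MvPolynomial Pool.Agent.H39.MonoR Pool.Agent.H75.Mono

section CLB

variable {k : Type} [Field k] [Algebra k ℂ] {σ : Type}

open Classical in
/-- add `t^q ν(t)` to the arc of the variable `l` -/
noncomputable def CLB_add {M e : ℕ} (l : σ) (q : ℕ) (ν : Fin e → ℂ) (φ : σ × Fin M → ℂ) :
    σ × Fin M → ℂ :=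
  fun p => φ p + if h : p.1 = l ∧ q ≤ (p.2 : ℕ) ∧ (p.2 : ℕ) - q < e then
    ν ⟨(p.2 : ℕ) - q, h.2.2⟩ else 0

theorem CLB_add_add {M e : ℕ} (l : σ) (q : ℕ) (ν ν' : Fin e → ℂ) (φ : σ × Fin M → ℂ) :
    CLB_add l q ν (CLB_add l q ν' φ) = CLB_add l q (ν + ν') φ := by
  funext p
  unfold CLB_add
  split_ifs with h
  · simp only [Pi.add_apply]
    ring
  · simp

theorem CLB_add_zero {M e : ℕ} (l : σ) (q : ℕ) (φ : σ × Fin M → ℂ) :
    CLB_add l q (0 : Fin e → ℂ) φ = φ := by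
  funext p
  unfold CLB_add
  split_ifs with h
  · simp
  · simp

theorem CLB_coeff {e : ℕ} (ν : Fin e → ℂ) (l : ℕ) :
    PowerSeries.coeff l (∑ s, PowerSeries.C (ν s) * PowerSeries.X ^ (s : ℕ) : PowerSeries ℂ) =
      if h : l < e then ν ⟨l, h⟩ else 0 := by
  rw [map_sum]
  simp only [PowerSeries.coeff_C_mul, PowerSeries.coeff_X_pow]
  by_cases h : l < e
  · rw [dif_pos h, Finset.sum_eq_single (⟨l, h⟩ : Fin e)]
    · simp
    · intro s _ hs
      rw [if_neg, mul_zero]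
      intro h1
      exact hs (Fin.ext h1.symm)
    · intro h1
      exact absurd (Finset.mem_univ _) h1
  · rw [dif_neg h]
    refine Finset.sum_eq_zero fun s _ => ?_
    rw [if_neg, mul_zero]
    intro h1
    exact h (h1 ▸ s.2)

open Classical in
theorem CLB_arc {M e : ℕ} (l : σ) {q : ℕ} (hq : q + e ≤ M) (ν : Fin e → ℂ)
    (φ : σ × Fin M → ℂ) :
    arc (CLB_add l q ν φ) = Function.update (arc φ) l (arc φ l + PowerSeries.X ^ q *
      ∑ s, PowerSeries.C (ν s) * PowerSeries.X ^ (s : ℕ)) := by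
  funext j
  by_cases hj : j = l
  · subst hj
    rw [Function.update_self]
    ext n
    rw [map_add, coeff_arc, coeff_arc, PowerSeries.coeff_X_pow_mul', CLB_coeff]
    by_cases hn : n < M
    · rw [dif_pos hn, dif_pos hn]
      simp only [CLB_add]
      congr 1
      by_cases h1 : q ≤ n
      · rw [if_pos h1]
        by_cases h2 : n - q < e
        · rw [dif_pos h2, dif_pos ⟨trivial, h1, h2⟩]
        · rw [dif_neg h2, dif_neg (fun h => h2 h.2.2)]
      · rw [if_neg h1, dif_neg (fun h => h1 h.2.1)]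
    · rw [dif_neg hn, dif_neg hn, zero_add]
      split_ifs with h1 h2
      · omega
      · rfl
      · rfl
  · rw [Function.update_of_ne hj]
    ext n
    rw [coeff_arc, coeff_arc]
    split_ifs with hn
    · simp only [CLB_add]
      rw [dif_neg, add_zero]
      rintro ⟨h, -⟩
      exact hj h
    · rfl

/-- low coefficients do not change -/
theorem CLB_low {M e : ℕ} (l : σ) {u : σ → ℕ} (ν : Fin e → ℂ) (φ : σ × Fin M → ℂ) (i : σ)
    (n : Fin M) (hn : (n : ℕ) ≤ u i) : CLB_add l (u l + 1) ν φ (i, n) = φ (i, n) := by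
  unfold CLB_add
  rw [dif_neg, add_zero]
  rintro ⟨h1, h2, -⟩
  simp only at h1 h2
  subst h1
  omega

variable [Fintype σ]

theorem CLB_pmap {M e : ℕ} (l : σ) (q : ℕ) :
    PMap k (fun y : (Fin e → ℂ) × (σ × Fin M → ℂ) => CLB_add l q y.1 y.2) := by
  classical
  refine PMap.pi fun p => ?_
  unfold CLB_add
  have h1 : PFun k (fun y : (Fin e → ℂ) × (σ × Fin M → ℂ) => y.2 p) :=
    Pool.Agent.H75.Mono.PFun.comp (f := fun χ : σ × Fin M → ℂ => χ p) (PFun.apply (k := k) p) PMap.snd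
  by_cases h : p.1 = l ∧ q ≤ (p.2 : ℕ) ∧ (p.2 : ℕ) - q < e
  · simp only [dif_pos h]
    exact h1.add (Pool.Agent.H75.Mono.PFun.comp (f := fun χ : Fin e → ℂ => χ ⟨(p.2 : ℕ) - q, h.2.2⟩)
      (PFun.apply (k := k) _) PMap.fst)
  · simp only [dif_neg h]
    exact h1.add PFun.zero

/-- the set of arcs with leading coefficients in `A` -/
def CLB_Y {M : ℕ} (u : σ → ℕ) (hu : ∀ j, u j < M) (A : Set (σ → ℂ)) : Set (σ × Fin M → ℂ) :=
  {φ | (∀ (i : σ) (l : Fin M), (l : ℕ) < u i → φ (i, l) = 0) ∧ (fun j => φ (j, ⟨u j, hu j⟩)) ∈ A}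

theorem CLB_iconsY {M : ℕ} {u : σ → ℕ} (hu : ∀ j, u j < M) {A : Set (σ → ℂ)} (hA : ICons k A) :
    ICons k (CLB_Y u hu A) := by
  have hlo : PMap k (fun φ : σ × Fin M → ℂ => fun j => φ (j, ⟨u j, hu j⟩)) :=
    PMap.pi fun j => PFun.apply (k := k) ((j, ⟨u j, hu j⟩) : σ × Fin M)
  exact ICons.and (CLA_icons_low u) (hA.mem hlo)

variable {I : Type} [Fintype I] [Nonempty I]

/-- one piece -/
theorem CLB_piece (hHen : SHen) (a : I → σ → ℕ) (c : I → k) (u : σ → ℕ) (d M : ℕ)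
    (hN : Nw a u < d) (hu : ∀ j, u j + d < M) (hu' : ∀ j, u j < M) (l : σ) {P : Set (σ → ℂ)}
    (hPc : ICons k P)
    (hP : ∀ z ∈ P, aeval z (fpoly a c u) = 0 ∧ aeval z (pderiv l (fpoly a c u)) ≠ 0) :
    mo k {φ : σ × Fin M → ℂ | φ ∈ CLB_Y u hu' P ∧ Hit (poly a c) d φ 1} *
        ↑(Lu k ^ ((d - Nw a u : ℕ) : ℤ)) = mo k (CLB_Y u hu' P) := by
  classical
  have hY := CLB_iconsY (k := k) hu' hPc
  have hX : ICons k {φ : σ × Fin M → ℂ | φ ∈ CLB_Y u hu' P ∧ Hit (poly a c) d φ 1} :=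
    ICons.and hY (ICons.hit d (poly a c) PMap.id' PFun.one)
  have e1 : ((Nat.card (Fin (d - Nw a u)) : ℕ) : ℤ) = ((d - Nw a u : ℕ) : ℤ) := by
    rw [Nat.card_eq_fintype_card, Fintype.card_fin]
  have hq : u l + 1 + (d - Nw a u) ≤ M := by
    have := hu l
    omega
  rw [mul_comm, ← e1, ← mo_univ_pi (k := k) (α := Fin (d - Nw a u)), ← mo_prod ICons.univ hX]
  -- `CLB_add` preserves the set
  have hpres : ∀ (ν : Fin (d - Nw a u) → ℂ) (φ : σ × Fin M → ℂ), φ ∈ CLB_Y u hu' P →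
      CLB_add l (u l + 1) ν φ ∈ CLB_Y u hu' P := by
    rintro ν φ ⟨h1, h2⟩
    refine ⟨fun i n hn => ?_, ?_⟩
    · rw [CLB_low l ν φ i n hn.le]
      exact h1 i n hn
    · have e : (fun j => CLB_add l (u l + 1) ν φ (j, ⟨u j, hu' j⟩)) =
          fun j => φ (j, ⟨u j, hu' j⟩) := by
        funext j
        exact CLB_low l ν φ j _ le_rfl
      rw [e]
      exact h2
  -- the equation
  have hsol : ∀ φ ∈ CLB_Y u hu' P, ∃! η : Fin (d - Nw a u) → ℂ,
      Hit (poly a c) d (CLB_add l (u l + 1) η φ) 1 := by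
    rintro φ ⟨h1, h2⟩
    have hlow : ∀ j n, n < u j → PowerSeries.coeff n (arc φ j) = 0 := by
      intro j n hn
      rw [coeff_arc, dif_pos (hn.trans (hu' j))]
      exact h1 j ⟨n, hn.trans (hu' j)⟩ hn
    have h3 : (fun j => PowerSeries.coeff (u j) (arc φ j)) = fun j => φ (j, ⟨u j, hu' j⟩) := by
      funext j
      rw [coeff_arc, dif_pos (hu' j)]
    obtain ⟨h4, h5⟩ := hP _ h2
    rw [← h3] at h4 h5
    have h6 := hHen k σ I a c u (arc φ) hlow h4 l h5 d 1 hN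
    have e : ∀ η : Fin (d - Nw a u) → ℂ, Hit (poly a c) d (CLB_add l (u l + 1) η φ) 1 ↔
        ∀ n, n ≤ d → PowerSeries.coeff n (aeval (Function.update (arc φ) l
          (arc φ l + PowerSeries.X ^ (u l + 1) *
            ∑ s, PowerSeries.C (η s) * PowerSeries.X ^ (s : ℕ))) (poly a c)) =
          if n = d then (1 : ℂ) else 0 := by
      intro η
      unfold Hit arcEval
      rw [CLB_arc l hq]
    obtain ⟨η, hη, hη'⟩ := h6
    refine ⟨η, (e η).2 ?_, fun η' h => hη' η' ?_⟩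
    · convert hη
    · convert (e η').1 h
  refine mo_bij (ICons.prod ICons.univ hX) hY (CLB_pmap l (u l + 1)) ⟨?_, ?_, ?_⟩
  · rintro ⟨ν, φ⟩ ⟨-, h1, -⟩
    exact hpres ν φ h1
  · rintro ⟨ν, φ⟩ ⟨-, h1, h2⟩ ⟨ν', φ'⟩ ⟨-, h1', h2'⟩ heq
    simp only at h1 h2 h1' h2' heq
    obtain ⟨η, -, hη⟩ := hsol _ (hpres ν φ h1)
    have h3 : -ν = η := by
      apply hη
      rw [CLB_add_add, neg_add_cancel, CLB_add_zero]
      exact h2
    have h4 : -ν' = η := by
      apply hη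
      rw [heq, CLB_add_add, neg_add_cancel, CLB_add_zero]
      exact h2'
    have h5 : ν = ν' := neg_injective (h3.trans h4.symm)
    subst h5
    have h6 := congrArg (CLB_add l (u l + 1) (-ν)) heq
    rw [CLB_add_add, CLB_add_add, neg_add_cancel, CLB_add_zero, CLB_add_zero] at h6
    rw [h6]
  · intro ψ hψ
    obtain ⟨η, hη, -⟩ := hsol ψ hψ
    refine ⟨(-η, CLB_add l (u l + 1) η ψ), ⟨Set.mem_univ _, hpres η ψ hψ, hη⟩, ?_⟩
    simp only
    rw [CLB_add_add, neg_add_cancel, CLB_add_zero]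

end CLB

theorem s_Clb (hArc : SArc) (hHen : SHen) : SClb := by
  intro k _ _ σ I _ _ _ a c u F d M hN hu hM hsm
  classical
  have hu' : ∀ j, u j < M := fun j => by have := hu j; omega
  have hA : ICons k {z : σ → ℂ | (∀ j, j ∉ F → z j ≠ 0) ∧ aeval z (fpoly a c u) = 0} := by
    have h := CLA_icons (k := k) F (fpoly a c u) 0
    rwa [map_zero] at h
  -- the pieces
  let en := Fintype.equivFin σ
  let P : σ → Set (σ → ℂ) := fun l =>
    {z | ((∀ j, j ∉ F → z j ≠ 0) ∧ aeval z (fpoly a c u) = 0) ∧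
      aeval z (pderiv l (fpoly a c u)) ≠ 0 ∧
      ∀ l', en l' < en l → aeval z (pderiv l' (fpoly a c u)) = 0}
  have hPc : ∀ l, ICons k (P l) := by
    intro l
    refine ICons.and hA (ICons.and (ICons.ne (CLA_pfun_aeval _) PFun.zero) ?_)
    apply ICons.forall_fin
    intro l'
    by_cases h : en l' < en l
    · simp only [h, true_implies]
      exact ICons.eq (CLA_pfun_aeval _) PFun.zero
    · simp only [h, false_implies]
      exact ICons.univ
  have hPdis : ∀ l l', l ≠ l' → ∀ z, z ∈ P l → z ∉ P l' := by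
    intro l l' hll z hz hz'
    rcases lt_trichotomy (en l) (en l') with h | h | h
    · exact hz.2.1 (hz'.2.2 l h)
    · exact hll (en.injective h)
    · exact hz'.2.1 (hz.2.2 l' h)
  have hPun : ∀ z : σ → ℂ, ((∀ j, j ∉ F → z j ≠ 0) ∧ aeval z (fpoly a c u) = 0) ↔
      ∃ l ∈ (Finset.univ : Finset σ), z ∈ P l := by
    intro z
    constructor
    · intro hz
      obtain ⟨l₀, hl₀⟩ := hsm z hz.1 hz.2
      obtain ⟨l, hl, hmin⟩ := Finset.exists_min_image
        (Finset.univ.filter fun l => aeval z (pderiv l (fpoly a c u)) ≠ 0) en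
        ⟨l₀, by simpa using hl₀⟩
      refine ⟨l, Finset.mem_univ _, hz, by simpa using hl, ?_⟩
      intro l' hl'
      by_contra h
      exact absurd (hmin l' (by simpa using h)) (not_le.2 hl')
    · rintro ⟨l, -, h⟩
      exact h.1
  -- the right hand side
  rw [← CLA_mo hu' hA]
  have e1 : {φ : σ × Fin M → ℂ | (∀ (i : σ) (l : Fin M), (l : ℕ) < u i → φ (i, l) = 0) ∧
      (fun j => φ (j, ⟨u j, hu' j⟩)) ∈
        {z : σ → ℂ | (∀ j, j ∉ F → z j ≠ 0) ∧ aeval z (fpoly a c u) = 0}} =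
      {φ | ∃ l ∈ (Finset.univ : Finset σ), φ ∈ CLB_Y u hu' (P l)} := by
    ext φ
    simp only [Set.mem_ofPred_eq, CLB_Y]
    rw [hPun]
    constructor
    · rintro ⟨h1, l, h2, h3⟩
      exact ⟨l, h2, h1, h3⟩
    · rintro ⟨l, h2, h1, h3⟩
      exact ⟨h1, l, h2, h3⟩
  have e2 : {φ : σ × Fin M → ℂ | φ ∈ Cyl u F ∧ Hit (poly a c) d φ 1} =
      {φ | ∃ l ∈ (Finset.univ : Finset σ), φ ∈ {φ | φ ∈ CLB_Y u hu' (P l) ∧
        Hit (poly a c) d φ 1}} := by
    ext φ
    constructor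
    · rintro ⟨h1, h2⟩
      rw [CLA_cyl hu'] at h1
      obtain ⟨h1, h3⟩ := h1
      have hlow : ∀ j l, l < u j → PowerSeries.coeff l (arc φ j) = 0 := by
        intro j l hl
        rw [coeff_arc, dif_pos (hl.trans (hu' j))]
        exact h1 j ⟨l, hl.trans (hu' j)⟩ hl
      obtain ⟨-, h4⟩ := hArc k σ I a c u (arc φ) hlow
      have h5 : (fun j => PowerSeries.coeff (u j) (arc φ j)) =
          fun j => φ (j, ⟨u j, hu' j⟩) := by
        funext j
        rw [coeff_arc, dif_pos (hu' j)]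
      rw [h5] at h4
      have h6 : aeval (fun j => φ (j, ⟨u j, hu' j⟩)) (fpoly a c u) = 0 := by
        rw [← h4]
        have h7 := h2 (Nw a u) hN.le
        rw [if_neg hN.ne] at h7
        exact h7
      obtain ⟨l, hl, h8⟩ := (hPun _).1 ⟨h3, h6⟩
      exact ⟨l, hl, ⟨h1, h8⟩, h2⟩
    · rintro ⟨l, -, ⟨h1, h3⟩, h2⟩
      exact ⟨(CLA_cyl hu' F φ).2 ⟨h1, h3.1.1⟩, h2⟩
  have hYc : ∀ l, ICons k (CLB_Y u hu' (P l)) := fun l => CLB_iconsY hu' (hPc l)
  have hXc : ∀ l, ICons k {φ : σ × Fin M → ℂ | φ ∈ CLB_Y u hu' (P l) ∧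
      Hit (poly a c) d φ 1} := fun l =>
    ICons.and (hYc l) (ICons.hit d (poly a c) PMap.id' PFun.one)
  have hdis : ∀ l l', l ≠ l' → Disjoint (CLB_Y u hu' (P l)) (CLB_Y u hu' (P l')) := by
    intro l l' hll
    rw [Set.disjoint_left]
    intro φ h1 h2
    exact hPdis l l' hll _ h1.2 h2.2
  rw [e1, e2, mo_biUnion _ (fun l _ => hYc l) (fun l _ l' _ h => hdis l l' h),
    mo_biUnion _ (fun l _ => hXc l) ?_]
  · refine (Finset.sum_mul _ _ _).trans (Finset.sum_congr rfl fun l _ => ?_)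
    exact CLB_piece hHen a c u d M hN hu hu' l (hPc l) fun z hz => ⟨hz.1.2, hz.2.1⟩
  · intro l _ l' _ hll
    have h := hdis l l' hll
    rw [Set.disjoint_left] at h ⊢
    intro φ h1 h2
    exact h h1.1 h2.1

end Pool.Newt
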